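import Mathlib

/-! Complements of pairwise compatibility graphs need not be intersections of `k` pairwise
compatibility graphs, for any `k`. -/

namespace Pool.Agent.Results.MP_488b30_co.ComplementNotAnd

/-- A finite tree with nonnegative real edge weights. -/
structure WeightedTree where
  node : Type
  finite : Finite node
  graph : SimpleGraph node
  isTree : graph.IsTree
  weight : Sym2 node → ℝ
  weight_nonneg : ∀ e ∈ graph.edgeSet, 0 ≤ weight e

namespace WeightedTree

/-- The unique path between two nodes of the tree. -/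
noncomputable def path (T : WeightedTree) (u v : T.node) : T.graph.Walk u v :=
  (T.isTree.existsUnique_path u v).choose

/-- The total weight of the unique path between `u` and `v`. -/
noncomputable def dist (T : WeightedTree) (u v : T.node) : ℝ :=
  ((T.path u v).edges.map T.weight).sum

/-- The leaves of the tree: the nodes with at most one neighbour. -/
def leaves (T : WeightedTree) : Set T.node := {v | (T.graph.neighborSet v).Subsingleton}

end WeightedTree

/-- `G` is a pairwise compatibility graph: there are a weighted tree `T` whose leaves are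
identified with the vertices of `G` by a bijection `leaf`, and an interval `I` of nonnegative
reals, such that distinct `u`, `v` are adjacent iff the distance of the leaves `u`, `v` is in
`I`. -/
def IsPCG {V : Type} (G : SimpleGraph V) : Prop :=
  ∃ (T : WeightedTree) (I : Set ℝ) (leaf : V → T.node),
    I.OrdConnected ∧ I ⊆ Set.Ici 0 ∧ Set.BijOn leaf Set.univ T.leaves ∧
      ∀ u v, u ≠ v → (G.Adj u v ↔ T.dist (leaf u) (leaf v) ∈ I)

/-- `G` is a `k`-AND-PCG: its edge set is the intersection of the edge sets of `k` pairwise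
compatibility graphs on the same vertex set. -/
def IsAndPCG (k : ℕ) {V : Type} (G : SimpleGraph V) : Prop :=
  ∃ H : Fin k → SimpleGraph V, (∀ i, IsPCG (H i)) ∧
    ∀ u v, u ≠ v → (G.Adj u v ↔ ∀ i, (H i).Adj u v)

/-! ### Tree metrics and the four-point condition -/

namespace WeightedTree

variable (T : WeightedTree)

lemma path_isPath (u v : T.node) : (T.path u v).IsPath :=
  (T.isTree.existsUnique_path u v).choose_spec.1

lemma eq_path {u v : T.node} {p : T.graph.Walk u v} (hp : p.IsPath) : p = T.path u v :=
  (T.isTree.existsUnique_path u v).choose_spec.2 p hp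

lemma dist_eq_of_isPath {u v : T.node} {p : T.graph.Walk u v} (hp : p.IsPath) :
    T.dist u v = (p.edges.map T.weight).sum := by
  rw [dist, ← T.eq_path hp]

/-- `u` and `v` are on the same side of `e`. -/
def Same (e : Sym2 T.node) (u v : T.node) : Prop := (T.graph.deleteEdges {e}).Reachable u v

lemma Same.symm {T : WeightedTree} {e : Sym2 T.node} {u v : T.node} (h : T.Same e u v) :
    T.Same e v u := SimpleGraph.Reachable.symm h

lemma Same.trans {T : WeightedTree} {e : Sym2 T.node} {u v w : T.node} (h : T.Same e u v)
    (h' : T.Same e v w) : T.Same e u w := SimpleGraph.Reachable.trans h h'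

lemma mem_path_iff (e : Sym2 T.node) (u v : T.node) :
    e ∈ (T.path u v).edges ↔ ¬ T.Same e u v := by
  classical
  constructor
  · rintro he ⟨p⟩
    have hle := SimpleGraph.deleteEdges_le (G := T.graph) {e}
    have h1 : (p.mapLe hle).bypass = T.path u v := T.eq_path (p.mapLe hle).bypass_isPath
    rw [← h1] at he
    have h2 := (p.mapLe hle).edges_bypass_subset_edges he
    rw [SimpleGraph.Walk.edges_mapLe_eq_edges] at h2
    have h3 := p.edges_subset_edgeSet h2
    rw [SimpleGraph.edgeSet_deleteEdges] at h3
    exact h3.2 rfl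
  · intro h
    by_contra he
    exact h ⟨(T.path u v).toDeleteEdge e he⟩

lemma side (a b : T.node) (u : T.node) : T.Same s(a, b) u a ∨ T.Same s(a, b) u b := by
  have key : ∀ {u a' : T.node} (_ : T.graph.Walk u a'), a' = a →
      T.Same s(a, b) u a ∨ T.Same s(a, b) u b := by
    intro u a' p
    induction p with
    | nil => rintro rfl; exact Or.inl (SimpleGraph.Reachable.refl _)
    | @cons u w z h q ih =>
      intro hz
      by_cases he : s(u, w) = s(a, b)
      · rw [Sym2.eq_iff] at he
        rcases he with ⟨h1, -⟩ | ⟨h1, -⟩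
        · exact Or.inl (by rw [h1]; exact SimpleGraph.Reachable.refl _)
        · exact Or.inr (by rw [h1]; exact SimpleGraph.Reachable.refl _)
      · have hadj : (T.graph.deleteEdges {s(a, b)}).Adj u w := by
          rw [SimpleGraph.deleteEdges_adj]
          exact ⟨h, fun h' => he h'⟩
        have huw : T.Same s(a, b) u w := hadj.reachable
        rcases ih hz with h' | h'
        · exact Or.inl (huw.trans h')
        · exact Or.inr (huw.trans h')
  exact key (T.path u a) rfl

lemma two_sides (e : Sym2 T.node) {u v x : T.node} (h1 : ¬ T.Same e u v) (h2 : ¬ T.Same e u x) :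
    T.Same e v x := by
  induction e using Sym2.ind with
  | _ a b =>
    rcases T.side a b u with hu | hu
    · have hv := (T.side a b v).resolve_left fun hv => h1 (hu.trans hv.symm)
      have hx := (T.side a b x).resolve_left fun hx => h2 (hu.trans hx.symm)
      exact hv.trans hx.symm
    · have hv := (T.side a b v).resolve_right fun hv => h1 (hu.trans hv.symm)
      have hx := (T.side a b x).resolve_right fun hx => h2 (hu.trans hx.symm)
      exact hv.trans hx.symm

/-- If `e` does not separate `u` and `x` but `f` does, then the path from `u` to `x` gives that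
every endpoint of `f` is on the side of `u` with respect to `e`. -/
lemma same_of_mem {e f : Sym2 T.node} {u x a : T.node} (h1 : T.Same e u x)
    (h2 : ¬ T.Same f u x) (ha : a ∈ f) : T.Same e u a := by
  classical
  have hf : f ∈ (T.path u x).edges := (T.mem_path_iff f u x).2 h2
  have he : e ∉ (T.path u x).edges := fun h => (T.mem_path_iff e u x).1 h h1
  have hmem : a ∈ (T.path u x).support := by
    induction f using Sym2.ind with
    | _ b c =>
      rw [Sym2.mem_iff] at ha
      rcases ha with rfl | rfl
      · exact SimpleGraph.Walk.fst_mem_support_of_mem_edges _ hf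
      · exact SimpleGraph.Walk.snd_mem_support_of_mem_edges _ hf
  refine ⟨((T.path u x).takeUntil a hmem).toDeleteEdge e ?_⟩
  intro h
  exact he ((T.path u x).edges_takeUntil_subset_edges hmem h)

/-- Two splits of four leaves induced by edges of a tree are compatible. -/
lemma compatible {e f : Sym2 T.node} {u v x y : T.node} (he1 : ¬ T.Same e u v)
    (he2 : T.Same e u x) (he3 : T.Same e v y) (hf1 : ¬ T.Same f u x) (hf2 : ¬ T.Same f v y) :
    False := by
  obtain ⟨a, ha⟩ : ∃ a, a ∈ f := by
    induction f using Sym2.ind with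
    | _ b c => exact ⟨b, by simp⟩
  exact he1 ((T.same_of_mem he2 hf1 ha).trans (T.same_of_mem he3 hf2 ha).symm)

open Classical in
/-- Contribution of `e` to the distance. -/
noncomputable def contrib (e : Sym2 T.node) (u v : T.node) : ℝ :=
  if ¬ T.Same e u v then T.weight e else 0

lemma dist_eq_sum [Fintype T.node] [DecidableEq T.node] (u v : T.node) :
    T.dist u v = ∑ e : Sym2 T.node, T.contrib e u v := by
  classical
  have hnd : (T.path u v).edges.Nodup := (T.path_isPath u v).isTrail.edges_nodup
  rw [dist, ← List.sum_toFinset _ hnd]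
  have hsub : (T.path u v).edges.toFinset ⊆ Finset.univ := Finset.subset_univ _
  rw [← Finset.sum_subset hsub (f := fun e => T.contrib e u v)]
  · apply Finset.sum_congr rfl
    intro e he
    rw [List.mem_toFinset, T.mem_path_iff] at he
    simp [contrib, he]
  · intro e _ he
    rw [List.mem_toFinset, T.mem_path_iff, not_not] at he
    simp [contrib, he]

lemma contrib_nonneg (e : Sym2 T.node) (u v : T.node) : 0 ≤ T.contrib e u v := by
  classical
  unfold contrib
  split_ifs with h
  · exact le_rfl
  · exact T.weight_nonneg e ((T.path u v).edges_subset_edgeSet ((T.mem_path_iff e u v).2 h))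

lemma contrib_of_same {e : Sym2 T.node} {u v : T.node} (h : T.Same e u v) :
    T.contrib e u v = 0 := by
  simp [contrib, h]

lemma contrib_of_not_same {e : Sym2 T.node} {u v : T.node} (h : ¬ T.Same e u v) :
    T.contrib e u v = T.weight e := by
  simp [contrib, h]

/-- Termwise inequality for an edge which does not induce the split `u x | v y`. -/
lemma contrib_le {e : Sym2 T.node} {u v x y : T.node}
    (h : ¬ (¬ T.Same e u v ∧ T.Same e u x ∧ T.Same e v y)) :
    T.contrib e u v + T.contrib e x y ≤ T.contrib e u x + T.contrib e v y := by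
  have n1 := T.contrib_nonneg e u v
  have n2 := T.contrib_nonneg e x y
  have n3 := T.contrib_nonneg e u x
  have n4 := T.contrib_nonneg e v y
  by_cases huv : T.Same e u v
  · rw [T.contrib_of_same huv]
    by_cases hxy : T.Same e x y
    · rw [T.contrib_of_same hxy]; linarith
    · rw [T.contrib_of_not_same hxy]
      by_cases hux : T.Same e u x
      · have hvy : ¬ T.Same e v y := fun h' => hxy ((hux.symm.trans huv).trans h')
        rw [T.contrib_of_not_same hvy]; linarith
      · rw [T.contrib_of_not_same hux]; linarith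
  · rw [T.contrib_of_not_same huv]
    by_cases hux : T.Same e u x
    · have hvy : ¬ T.Same e v y := fun h' => h ⟨huv, hux, h'⟩
      have hxy : T.Same e x y := by
        have h1 : ¬ T.Same e v x := fun h' => huv (hux.trans h'.symm)
        exact T.two_sides e h1 hvy
      rw [T.contrib_of_same hxy, T.contrib_of_not_same hvy]; linarith
    · by_cases hxy : T.Same e x y
      · rw [T.contrib_of_same hxy, T.contrib_of_not_same hux]; linarith
      · have hvx : T.Same e v x := T.two_sides e huv hux
        have hvy : ¬ T.Same e v y := fun h' => hxy (hvx.symm.trans h')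
        rw [T.contrib_of_not_same hxy, T.contrib_of_not_same hux, T.contrib_of_not_same hvy]

lemma dist_comm (u v : T.node) : T.dist u v = T.dist v u := by
  classical
  have := T.finite
  have := Fintype.ofFinite T.node
  rw [T.dist_eq_sum, T.dist_eq_sum]
  apply Finset.sum_congr rfl
  intro e _
  by_cases h : T.Same e u v
  · rw [T.contrib_of_same h, T.contrib_of_same h.symm]
  · rw [T.contrib_of_not_same h, T.contrib_of_not_same fun h' => h h'.symm]

/-- The four-point condition. -/
theorem four_point (u v x y : T.node) :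
    T.dist u v + T.dist x y ≤ max (T.dist u x + T.dist v y) (T.dist u y + T.dist v x) := by
  classical
  have := T.finite
  have := Fintype.ofFinite T.node
  by_cases hA : ∃ e, ¬ T.Same e u v ∧ T.Same e u x ∧ T.Same e v y
  · obtain ⟨e, he1, he2, he3⟩ := hA
    refine le_max_of_le_right ?_
    rw [T.dist_comm x y]
    simp only [T.dist_eq_sum]
    rw [← Finset.sum_add_distrib, ← Finset.sum_add_distrib]
    apply Finset.sum_le_sum
    intro f _
    apply T.contrib_le
    rintro ⟨hf1, hf2, hf3⟩
    have hf4 : ¬ T.Same f u x := fun h => hf1 (h.trans hf3.symm)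
    have hf5 : ¬ T.Same f v y := fun h => hf1 (hf2.trans h.symm)
    exact T.compatible he1 he2 he3 hf4 hf5
  · refine le_max_of_le_left ?_
    simp only [T.dist_eq_sum]
    rw [← Finset.sum_add_distrib, ← Finset.sum_add_distrib]
    apply Finset.sum_le_sum
    intro f _
    exact T.contrib_le fun h => hA ⟨f, h⟩

end WeightedTree

/-! ### Trees given by a parent function -/

/-- The graph in which every node other than the root is joined to its parent. -/
def parentGraph {W : Type} (r : W) (par : W → W) : SimpleGraph W :=
  SimpleGraph.fromRel fun v w => v ≠ r ∧ w = par v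

lemma parentGraph_isTree {W : Type} [Finite W] (r : W) (par : W → W) (dep : W → ℕ)
    (h : ∀ v, v ≠ r → dep (par v) < dep v) : (parentGraph r par).IsTree := by
  classical
  have := Fintype.ofFinite W
  have hadj : ∀ v, v ≠ r → (parentGraph r par).Adj v (par v) := by
    intro v hv
    rw [parentGraph, SimpleGraph.fromRel_adj]
    refine ⟨?_, Or.inl ⟨hv, rfl⟩⟩
    intro heq
    have := h v hv
    rw [← heq] at this
    exact lt_irrefl _ this
  have hreach : ∀ n, ∀ v, dep v ≤ n → (parentGraph r par).Reachable v r := by
    intro n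
    induction n with
    | zero =>
      intro v hv
      by_cases hvr : v = r
      · rw [hvr]
      · exact absurd (h v hvr) (by omega)
    | succ n ih =>
      intro v hv
      by_cases hvr : v = r
      · rw [hvr]
      · exact (hadj v hvr).reachable.trans (ih _ (by have := h v hvr; omega))
  have hconn : (parentGraph r par).Connected := by
    have : Nonempty W := ⟨r⟩
    refine SimpleGraph.Connected.mk fun u v => ?_
    exact (hreach _ u le_rfl).trans (hreach _ v le_rfl).symm
  rw [SimpleGraph.isTree_iff_connected_and_card]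
  refine ⟨hconn, le_antisymm ?_ ?_⟩
  · have hsub : (parentGraph r par).edgeSet ⊆
        ((Finset.univ.erase r).image fun v => s(v, par v) : Finset (Sym2 W)) := by
      intro e he
      induction e using Sym2.ind with
      | _ a b =>
        rw [SimpleGraph.mem_edgeSet, parentGraph, SimpleGraph.fromRel_adj] at he
        simp only [Finset.coe_image, Set.mem_image, Finset.mem_coe, Finset.mem_erase,
          Finset.mem_univ, and_true]
        rcases he.2 with ⟨h1, h2⟩ | ⟨h1, h2⟩
        · exact ⟨a, h1, by rw [h2]⟩
        · exact ⟨b, h1, by rw [h2, Sym2.eq_swap]⟩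
    have h1 := Nat.card_mono (Finset.finite_toSet _) hsub
    have h2 : Nat.card ((((Finset.univ.erase r).image fun v => s(v, par v) :
        Finset (Sym2 W))) : Set (Sym2 W)) ≤ Fintype.card W - 1 := by
      rw [Nat.card_eq_card_toFinset, Finset.toFinset_coe]
      refine Finset.card_image_le.trans ?_
      rw [Finset.card_erase_of_mem (Finset.mem_univ _), Finset.card_univ]
    have h3 : 0 < Fintype.card W := Fintype.card_pos_iff.2 ⟨r⟩
    rw [Nat.card_eq_fintype_card (α := W)]
    omega
  · exact hconn.card_vert_le_card_edgeSet_add_one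

/-! ### The graph -/

/-- Vertices of the disjoint union of `a` copies of `K_{a, N}`. -/
abbrev Vert (a N : ℕ) : Type := Fin a × (Fin a ⊕ Fin N)

/-- The disjoint union of `a` copies of the complete bipartite graph `K_{a, N}`. -/
def copies (a N : ℕ) : SimpleGraph (Vert a N) :=
  SimpleGraph.fromRel fun u v => u.1 = v.1 ∧ u.2.isLeft ≠ v.2.isLeft

lemma copies_adj {a N : ℕ} (u v : Vert a N) :
    (copies a N).Adj u v ↔ u.1 = v.1 ∧ u.2.isLeft ≠ v.2.isLeft := by
  rw [copies, SimpleGraph.fromRel_adj]
  constructor
  · rintro ⟨-, h | h⟩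
    · exact h
    · exact ⟨h.1.symm, h.2.symm⟩
  · intro h
    exact ⟨fun huv => h.2 (by rw [huv]), Or.inl h⟩

/-- Nodes of the tree: the centre, one node for every copy, and the leaves. -/
abbrev Node (a N : ℕ) : Type := Option (Fin a) ⊕ Vert a N

/-- Parent function of the tree. -/
def par {a N : ℕ} : Node a N → Node a N
  | Sum.inl _ => Sum.inl none
  | Sum.inr u => Sum.inl (some u.1)

/-- Depth function of the tree. -/
def dep {a N : ℕ} : Node a N → ℕ
  | Sum.inl none => 0
  | Sum.inl (some _) => 1
  | Sum.inr _ => 2

/-- Weight of the edge from a node to its parent. -/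
def up {a N : ℕ} : Node a N → ℝ
  | Sum.inl _ => 10
  | Sum.inr u => if u.2.isLeft then 1 else 2

lemma up_nonneg {a N : ℕ} (v : Node a N) : 0 ≤ up v := by
  unfold up
  split
  · norm_num
  · split_ifs <;> norm_num

/-- The graph underlying the tree. -/
abbrev gr (a N : ℕ) : SimpleGraph (Node a N) := parentGraph (Sum.inl none) par

/-- The edge weights: the weight of an edge is the `up` weight of its lower end. -/
noncomputable def wt (a N : ℕ) : Sym2 (Node a N) → ℝ :=
  Sym2.lift ⟨fun u v => (if dep u < dep v then up v else 0) +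
    (if dep v < dep u then up u else 0), fun _ _ => add_comm _ _⟩

lemma wt_nonneg {a N : ℕ} (e : Sym2 (Node a N)) : 0 ≤ wt a N e := by
  induction e using Sym2.ind with
  | _ u v =>
    simp only [wt, Sym2.lift_mk]
    have h1 := up_nonneg u
    have h2 := up_nonneg v
    split_ifs <;> linarith

lemma gr_isTree (a N : ℕ) : (gr a N).IsTree :=
  parentGraph_isTree _ _ dep (by
    rintro ((_ | i) | u) hv
    · exact absurd rfl hv
    · simp [par, dep]
    · simp [par, dep])

/-- The weighted tree representing the disjoint union of complete bipartite graphs. -/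
noncomputable def theTree (a N : ℕ) : WeightedTree where
  node := Node a N
  finite := inferInstance
  graph := gr a N
  isTree := gr_isTree a N
  weight := wt a N
  weight_nonneg := fun e _ => wt_nonneg e

lemma adj_leaf {a N : ℕ} (u : Vert a N) : (gr a N).Adj (Sum.inr u) (Sum.inl (some u.1)) := by
  rw [gr, parentGraph, SimpleGraph.fromRel_adj]
  exact ⟨by simp, Or.inl ⟨by simp, rfl⟩⟩

lemma adj_mid {a N : ℕ} (i : Fin a) : (gr a N).Adj (Sum.inl (some i)) (Sum.inl none) := by
  rw [gr, parentGraph, SimpleGraph.fromRel_adj]
  exact ⟨by simp, Or.inl ⟨by simp, rfl⟩⟩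

lemma exists_path_same {a N : ℕ} {u v : Vert a N} (huv : u ≠ v) (h : u.1 = v.1) :
    ∃ p : (gr a N).Walk (Sum.inr u) (Sum.inr v), p.IsPath ∧ (p.edges.map (wt a N)).sum =
      (if u.2.isLeft then 1 else 2) + (if v.2.isLeft then 1 else 2) := by
  have h2 : (gr a N).Adj (Sum.inl (some u.1)) (Sum.inr v) := by
    rw [h]; exact (adj_leaf v).symm
  refine ⟨SimpleGraph.Walk.cons (adj_leaf u)
      (SimpleGraph.Walk.cons h2 SimpleGraph.Walk.nil), ?_, ?_⟩
  · rw [SimpleGraph.Walk.isPath_def]
    simp [huv]
  · simp [wt, dep, up]

lemma exists_path_cross {a N : ℕ} {u v : Vert a N} (h : u.1 ≠ v.1) :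
    ∃ p : (gr a N).Walk (Sum.inr u) (Sum.inr v), p.IsPath ∧
      (3 : ℝ) < (p.edges.map (wt a N)).sum := by
  have huv : u ≠ v := fun h' => h (by rw [h'])
  refine ⟨SimpleGraph.Walk.cons (adj_leaf u)
      (SimpleGraph.Walk.cons (adj_mid u.1) (SimpleGraph.Walk.cons (adj_mid v.1).symm
      (SimpleGraph.Walk.cons (adj_leaf v).symm SimpleGraph.Walk.nil))), ?_, ?_⟩
  · rw [SimpleGraph.Walk.isPath_def]
    simp [huv, h]
  · have e1 : (0 : ℝ) ≤ if u.2.isLeft = true then 1 else 2 := by split_ifs <;> norm_num
    have e2 : (0 : ℝ) ≤ if v.2.isLeft = true then 1 else 2 := by split_ifs <;> norm_num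
    simp [wt, dep, up]
    linarith

lemma dist_same {a N : ℕ} {u v : Vert a N} (huv : u ≠ v) (h : u.1 = v.1) :
    (theTree a N).dist (Sum.inr u : Node a N) (Sum.inr v : Node a N) =
      (if u.2.isLeft then 1 else 2) + (if v.2.isLeft then 1 else 2) := by
  obtain ⟨p, hp, hs⟩ := exists_path_same huv h
  rw [← hs]
  exact (theTree a N).dist_eq_of_isPath hp

lemma dist_cross {a N : ℕ} {u v : Vert a N} (h : u.1 ≠ v.1) :
    (3 : ℝ) < (theTree a N).dist (Sum.inr u : Node a N) (Sum.inr v : Node a N) := by
  obtain ⟨p, hp, hs⟩ := exists_path_cross (N := N) h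
  exact hs.trans_eq ((theTree a N).dist_eq_of_isPath hp).symm

lemma neighbors_leaf {a N : ℕ} (u : Vert a N) (z : Node a N)
    (hz : (gr a N).Adj (Sum.inr u) z) : z = Sum.inl (some u.1) := by
  rw [gr, parentGraph, SimpleGraph.fromRel_adj] at hz
  rcases hz.2 with ⟨-, h⟩ | ⟨-, h⟩
  · exact h
  · rcases z with z | z <;> simp [par] at h

lemma leaves_eq {a N : ℕ} (ha : 2 ≤ a) (z : Node a N) :
    ((gr a N).neighborSet z).Subsingleton ↔ ∃ u : Vert a N, Sum.inr u = z := by
  constructor
  · intro hz
    rcases z with (_ | i) | u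
    · exfalso
      have h1 : (Sum.inl (some (⟨0, by omega⟩ : Fin a)) : Node a N) ∈
          (gr a N).neighborSet (Sum.inl none) := (adj_mid _).symm
      have h2 : (Sum.inl (some (⟨1, by omega⟩ : Fin a)) : Node a N) ∈
          (gr a N).neighborSet (Sum.inl none) := (adj_mid _).symm
      have := hz h1 h2
      simp at this
    · exfalso
      have h1 : (Sum.inl none : Node a N) ∈
          (gr a N).neighborSet (Sum.inl (some i)) := adj_mid _
      have h2 : (Sum.inr (i, Sum.inl ⟨0, by omega⟩) : Node a N) ∈
          (gr a N).neighborSet (Sum.inl (some i)) :=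
        (adj_leaf (i, Sum.inl ⟨0, by omega⟩)).symm
      have := hz h1 h2
      simp at this
    · exact ⟨u, rfl⟩
  · rintro ⟨u, rfl⟩ x hx y hy
    rw [neighbors_leaf u x hx, neighbors_leaf u y hy]

/-- The disjoint union of `a ≥ 2` copies of `K_{a,N}` is a pairwise compatibility graph. -/
theorem copies_isPCG {a N : ℕ} (ha : 2 ≤ a) : IsPCG (copies a N) := by
  refine ⟨theTree a N, Set.Icc 3 3, (Sum.inr : Vert a N → Node a N), Set.ordConnected_Icc,
    ?_, ⟨?_, ?_, ?_⟩, ?_⟩
  · intro r hr
    exact (by norm_num : (0 : ℝ) ≤ 3).trans hr.1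
  · intro u _
    exact (leaves_eq ha (Sum.inr u)).2 ⟨u, rfl⟩
  · intro u _ v _ huv
    exact Sum.inr_injective huv
  · intro z hz
    obtain ⟨u, hu⟩ := (leaves_eq ha z).1 hz
    exact ⟨u, trivial, hu⟩
  · intro u v huv
    rw [copies_adj]
    by_cases h : u.1 = v.1
    · rw [dist_same huv h]
      simp only [h, true_and]
      cases hu : u.2.isLeft <;> cases hv : v.2.isLeft <;> norm_num
    · have := dist_cross (N := N) h
      simp only [h, false_and, false_iff]
      intro h3
      exact absurd h3.2 (by linarith)

/-- The complement of the disjoint union of `k + 1` copies of `K_{k+1,N}` is not a `k`-AND-PCG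
if `N` is large. -/
theorem not_isAndPCG_compl {k N : ℕ} (hN : (k + 1) * (k + 1) * k < N) :
    ¬ IsAndPCG k (copies (k + 1) N)ᶜ := by
  classical
  rintro ⟨H, hH, hE⟩
  choose T I leaf hI _ _ hadj using hH
  set D : Fin k → Vert (k + 1) N → Vert (k + 1) N → ℝ :=
    fun i u v => (T i).dist (leaf i u) (leaf i v) with hD
  have four : ∀ i u v x y, D i u v + D i x y ≤ max (D i u x + D i v y) (D i u y + D i v x) :=
    fun i u v x y => (T i).four_point _ _ _ _
  -- non-edges of the disjoint union have all distances in the intervals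
  have hin : ∀ i u v, u ≠ v → ¬ (copies (k + 1) N).Adj u v → D i u v ∈ I i := by
    intro i u v huv hn
    rw [← hadj i u v huv]
    exact (hE u v huv).1 ((SimpleGraph.compl_adj _ _ _).2 ⟨huv, hn⟩) i
  -- edges have some distance outside
  have hout : ∀ u v, (copies (k + 1) N).Adj u v → ∃ i, D i u v ∉ I i := by
    intro u v h
    by_contra hcon
    push Not at hcon
    have h1 : (copies (k + 1) N)ᶜ.Adj u v :=
      (hE u v h.ne).2 fun i => (hadj i u v h.ne).2 (hcon i)
    exact ((SimpleGraph.compl_adj _ _ _).1 h1).2 h
  -- a distance outside the interval is above or below all elements of the interval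
  have hnf : ∀ i u v, D i u v ∉ I i → (∀ r ∈ I i, D i u v < r) ∨ (∀ r ∈ I i, r < D i u v) := by
    intro i u v h
    by_contra hcon
    push Not at hcon
    obtain ⟨⟨r, hr, hr'⟩, s, hs, hs'⟩ := hcon
    exact h ((hI i).out hr hs ⟨hr', hs'⟩)
  -- the component of a far edge
  have hcomp : ∀ i, ∃ p : Fin (k + 1), ∀ u v : Vert (k + 1) N, u.1 = v.1 →
      (∀ r ∈ I i, r < D i u v) → u.1 = p := by
    intro i
    by_cases hex : ∃ u v : Vert (k + 1) N, u.1 = v.1 ∧ ∀ r ∈ I i, r < D i u v
    · obtain ⟨u, v, huv, hfar⟩ := hex
      refine ⟨u.1, fun x y hxy hfar' => ?_⟩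
      by_contra hne
      have cross : ∀ s t : Vert (k + 1) N, s.1 = u.1 → t.1 = x.1 → D i s t ∈ I i := by
        intro s t hs ht
        refine hin i s t (fun h => hne ?_) (fun h => hne ?_)
        · rw [← ht, ← h, hs]
        · rw [copies_adj] at h
          rw [← ht, ← h.1, hs]
      have c1 := cross u x rfl rfl
      have c2 := cross v y huv.symm hxy.symm
      have c3 := cross u y rfl hxy.symm
      have c4 := cross v x huv.symm rfl
      rcases le_max_iff.1 (four i u v x y) with h | h
      · have h1 := hfar _ c1
        have h2 := hfar' _ c2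
        linarith
      · have h1 := hfar _ c3
        have h2 := hfar' _ c4
        linarith
    · refine ⟨0, fun u v huv hfar => ?_⟩
      exact absurd ⟨u, v, huv, hfar⟩ hex
  choose p hp using hcomp
  -- a component without far edges
  obtain ⟨q, hq⟩ : ∃ q : Fin (k + 1), ∀ i, p i ≠ q := by
    by_contra hcon
    push Not at hcon
    have hsurj : Function.Surjective p := fun q => hcon q
    have := Fintype.card_le_of_surjective p hsurj
    simp at this
  have hnear : ∀ (x : Fin (k + 1)) (y : Fin N), ∃ i,
      ∀ r ∈ I i, D i (q, Sum.inl x) (q, Sum.inr y) < r := by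
    intro x y
    obtain ⟨i, hi⟩ := hout (q, Sum.inl x) (q, Sum.inr y) (by
      rw [copies_adj]
      exact ⟨rfl, by simp⟩)
    refine ⟨i, (hnf i _ _ hi).resolve_right fun h => ?_⟩
    exact hq i (hp i (q, Sum.inl x) (q, Sum.inr y) rfl h).symm
  choose col hcol using hnear
  -- two left vertices with the same colour for every right vertex
  have hpair : ∀ y : Fin N, ∃ t : Fin (k + 1) × Fin (k + 1) × Fin k,
      t.1 ≠ t.2.1 ∧ col t.1 y = t.2.2 ∧ col t.2.1 y = t.2.2 := by
    intro y
    obtain ⟨x, x', hne, heq⟩ := Fintype.exists_ne_map_eq_of_card_lt (fun x => col x y) (by simp)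
    exact ⟨(x, x', col x y), hne, rfl, heq.symm⟩
  choose φ hφ using hpair
  obtain ⟨y, y', hne, heq⟩ := Fintype.exists_ne_map_eq_of_card_lt φ (by
    simp only [Fintype.card_prod, Fintype.card_fin]
    calc (k + 1) * ((k + 1) * k) = (k + 1) * (k + 1) * k := by ring
      _ < N := hN)
  obtain ⟨h1, h2, h3⟩ := hφ y
  obtain ⟨-, h5, h6⟩ := hφ y'
  rw [← heq] at h5 h6
  set x := (φ y).1
  set x' := (φ y).2.1
  set i := (φ y).2.2
  have d1 := hcol x y
  have d2 := hcol x' y
  have d3 := hcol x y'
  have d4 := hcol x' y'
  rw [h2] at d1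
  rw [h3] at d2
  rw [h5] at d3
  rw [h6] at d4
  have e1 : D i (q, Sum.inl x) (q, Sum.inl x') ∈ I i := by
    refine hin i _ _ (by simpa using h1) ?_
    rw [copies_adj]
    simp
  have e2 : D i (q, Sum.inr y) (q, Sum.inr y') ∈ I i := by
    refine hin i _ _ (by simpa using hne) ?_
    rw [copies_adj]
    simp
  rcases le_max_iff.1 (four i (q, Sum.inl x) (q, Sum.inl x') (q, Sum.inr y) (q, Sum.inr y'))
    with h | h
  · have := d1 _ e1
    have := d4 _ e2
    linarith
  · have := d3 _ e1
    have := d2 _ e2
    linarith

/-- For every `k ≥ 1` there is a pairwise compatibility graph whose complement is not a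
`k`-AND-PCG. -/
theorem result (k : ℕ) (hk : 1 ≤ k) :
    ∃ (V : Type) (_ : Finite V) (G : SimpleGraph V), IsPCG G ∧ ¬ IsAndPCG k Gᶜ :=
  ⟨Vert (k + 1) ((k + 1) * (k + 1) * k + 1), inferInstance, copies _ _,
    copies_isPCG (by omega), not_isAndPCG_compl (Nat.lt_succ_self _)⟩

end Pool.Agent.Results.MP_488b30_co.ComplementNotAnd
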